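import Mathlib
import Pool.Agent.Work.MP_959bfa_wn.Interface

/-!
MP_959bfa_co, block GAP: piercing number against packing number.
-/

namespace Wn

open Finset

theorem gap_bbox {n : ℕ} (P : Fin n → ℝ × ℝ) (R : Bx) (h : (inds P R).Nonempty) :
    ∃ S : Bx, (∃ i, S.l = (P i).1) ∧ (∃ i, S.b = (P i).2) ∧ Ne S ∧ inds P S = inds P R ∧
      ∀ x y, In S x y → In R x y := by
  classical
  obtain ⟨i1, h1, m1⟩ := Finset.exists_min_image (inds P R) (fun i => (P i).1) h
  obtain ⟨i2, h2, m2⟩ := Finset.exists_max_image (inds P R) (fun i => (P i).1) h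
  obtain ⟨i3, h3, m3⟩ := Finset.exists_min_image (inds P R) (fun i => (P i).2) h
  obtain ⟨i4, h4, m4⟩ := Finset.exists_max_image (inds P R) (fun i => (P i).2) h
  have mem : ∀ i, i ∈ inds P R ↔ In R (P i).1 (P i).2 := by
    intro i
    unfold inds
    rw [mem_fl]
    simp
  have g1 := (mem i1).1 h1
  have g2 := (mem i2).1 h2
  have g3 := (mem i3).1 h3
  have g4 := (mem i4).1 h4
  have hsub : ∀ x y, In (⟨(P i1).1, (P i2).1, (P i3).2, (P i4).2⟩ : Bx) x y → In R x y := by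
    intro x y hxy
    obtain ⟨a1, a2, a3, a4⟩ := hxy
    simp only at a1 a2 a3 a4
    exact ⟨g1.1.trans a1, a2.trans g2.2.1, g3.2.2.1.trans a3, a4.trans g4.2.2.2⟩
  refine ⟨⟨(P i1).1, (P i2).1, (P i3).2, (P i4).2⟩, ⟨i1, rfl⟩, ⟨i3, rfl⟩,
    ⟨m1 i2 h2, m3 i4 h4⟩, ?_, hsub⟩
  ext i
  constructor
  · intro hi
    rw [mem]
    apply hsub
    unfold inds at hi
    rw [mem_fl] at hi
    exact hi.2
  · intro hi
    unfold inds
    rw [mem_fl]
    exact ⟨Finset.mem_univ _, m1 i hi, m2 i hi, m3 i hi, m4 i hi⟩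

theorem gap_depth {t : ℕ} (R : Fin t → Bx) (X Y : Finset ℝ) (hX : ∀ i, (R i).l ∈ X)
    (hY : ∀ i, (R i).b ∈ Y) (w : ℕ)
    (h : ∀ p ∈ X ×ˢ Y, (fl univ (fun i => In (R i) p.1 p.2)).card ≤ w) :
    DepthLe R univ w := by
  intro x y
  rcases (fl univ (fun j => In (R j) x y)).eq_empty_or_nonempty with he | hne
  · rw [he]; simp
  obtain ⟨i1, h1, m1⟩ := Finset.exists_max_image _ (fun i => (R i).l) hne
  obtain ⟨i2, h2, m2⟩ := Finset.exists_max_image _ (fun i => (R i).b) hne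
  refine le_trans (Finset.card_le_card ?_)
    (h ((R i1).l, (R i2).b) (Finset.mem_product.2 ⟨hX i1, hY i2⟩))
  intro j hj
  have q1 := (mem_fl.1 h1).2
  have q2 := (mem_fl.1 h2).2
  have qj := (mem_fl.1 hj).2
  rw [mem_fl]
  exact ⟨Finset.mem_univ _, m1 j hj, q1.1.trans qj.2.1, m2 j hj, q2.2.2.1.trans qj.2.2.2⟩

/-- numerical estimate: few coincidences in the exponential weights -/
theorem gap_num (d w n t g : ℕ) (T L : ℝ) (hT : 12 ≤ T) (hL : 1 ≤ L) (hw : 5 * L ≤ w)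
    (hn : 1 ≤ n) (hlog : 2 * Real.log n ≤ L) (hg : g ≤ n * n) (ht : (t : ℝ) ≤ T * L + 1)
    (h : (2 : ℝ) ^ d ≤ g * (1 + 1 / T) ^ t) : d ≤ w := by
  have hTp : 0 < T := by linarith
  have hnp : (0 : ℝ) < n := by exact_mod_cast hn
  have h1 : (1 + 1 / T) ^ t ≤ Real.exp (t * (1 / T)) := by
    rw [Real.exp_nat_mul]
    apply pow_le_pow_left₀ (by positivity)
    linarith [Real.add_one_le_exp (1 / T)]
  have h2 : (g : ℝ) ≤ Real.exp (2 * Real.log n) := by
    have e : Real.exp (2 * Real.log n) = (n : ℝ) * n := by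
      rw [two_mul, Real.exp_add, Real.exp_log hnp]
    rw [e]
    exact_mod_cast hg
  have h3 : (t : ℝ) * (1 / T) ≤ L + 1 := by
    have : (t : ℝ) * (1 / T) ≤ (T * L + 1) * (1 / T) :=
      mul_le_mul_of_nonneg_right ht (by positivity)
    have e : (T * L + 1) * (1 / T) = L + 1 / T := by
      field_simp
    rw [e] at this
    have : 1 / T ≤ 1 := by
      rw [div_le_one hTp]; linarith
    linarith
  have h4 : (2 : ℝ) ^ d ≤ Real.exp (3 * L) := by
    calc (2 : ℝ) ^ d ≤ g * (1 + 1 / T) ^ t := h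
      _ ≤ Real.exp (2 * Real.log n) * Real.exp (t * (1 / T)) :=
          mul_le_mul h2 h1 (by positivity) (Real.exp_pos _).le
      _ = Real.exp (2 * Real.log n + t * (1 / T)) := by rw [Real.exp_add]
      _ ≤ Real.exp (3 * L) := by
          apply Real.exp_le_exp.2
          linarith
  have h5 : (d : ℝ) * Real.log 2 ≤ 3 * L := by
    have := Real.log_le_log (by positivity) h4
    rw [Real.log_exp, Real.log_pow] at this
    exact this
  have h6 : (0.6931471803 : ℝ) < Real.log 2 := Real.log_two_gt_d9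
  have hd : (0 : ℝ) ≤ d := Nat.cast_nonneg d
  have h7 : (d : ℝ) * 0.6931471803 ≤ 3 * L := by
    have : (d : ℝ) * 0.6931471803 ≤ d * Real.log 2 := mul_le_mul_of_nonneg_left h6.le hd
    linarith
  have h8 : (d : ℝ) ≤ w := by
    have : (d : ℝ) ≤ 5 * L := by
      linarith
    linarith
  exact_mod_cast h8

theorem GAP (hM : stmt_MWU) : stmt_GAP := by
  classical
  intro F μ hF hnets c w L hDB hc hL hw5 hw6 n κ P hκ hnκ hlog p hp ν hν hpack
  have hcR : (1 : ℝ) ≤ c := by exact_mod_cast hc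
  have hνR : (1 : ℝ) ≤ ν := by exact_mod_cast hν
  have hκR : (1 : ℝ) ≤ κ := by exact_mod_cast hκ
  obtain ⟨T, hTdef⟩ : ∃ T : ℝ, T = 12 * c * ν := ⟨_, rfl⟩
  have hcν : (1 : ℝ) ≤ c * ν := by nlinarith
  have hT12 : 12 ≤ T := by rw [hTdef]; nlinarith
  have hFT : 12 * F * c * ν = F * T := by rw [hTdef]; ring
  rw [hFT]
  rcases le_total μ T with hμT | hTμ
  · obtain ⟨Z, hZ, hhit⟩ := hnets n κ P hκ hnκ
    refine ⟨Z, hZ.trans ?_, fun R hR => hhit R (hp _ hR)⟩
    apply mul_le_mul_of_nonneg_left _ hF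
    rw [div_le_iff₀ (by linarith)]
    exact hnκ.trans (mul_le_mul_of_nonneg_right hμT (by linarith))
  by_contra hcon
  have hn : 1 ≤ n := by
    rcases Nat.eq_zero_or_pos n with h0 | h0
    · exfalso
      apply hcon
      refine ⟨∅, by simp; positivity, fun R hR => ?_⟩
      exfalso
      have := hp _ hR
      have hle : (inds P R).card ≤ n := by
        have := Finset.card_le_univ (inds P R)
        rwa [Fintype.card_fin] at this
      omega
    · exact h0
  -- the family of tight boxes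
  obtain ⟨W, hW⟩ : ∃ W : Set Bx, W = {S : Bx | (∃ i, S.l = (P i).1) ∧ (∃ i, S.b = (P i).2) ∧
      Ne S ∧ p (inds P S)} := ⟨_, rfl⟩
  have hnoW : ¬ ∃ Z : Finset (ℝ × ℝ), (Z.card : ℝ) ≤ F * T ∧
      ∀ R ∈ W, ∃ z ∈ Z, In R z.1 z.2 := by
    rintro ⟨Z, hZ, hhit⟩
    apply hcon
    refine ⟨Z, hZ, fun R hR => ?_⟩
    have hne : (inds P R).Nonempty := by
      rw [← Finset.card_pos]
      have := hp _ hR
      omega
    obtain ⟨S, s1, s2, s3, s4, s5⟩ := gap_bbox P R hne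
    have hSW : S ∈ W := by
      rw [hW]
      exact ⟨s1, s2, s3, by rw [s4]; exact hR⟩
    obtain ⟨z, hz, hin⟩ := hhit S hSW
    exact ⟨z, hz, s5 _ _ hin⟩
  obtain ⟨X, hX⟩ : ∃ X : Finset ℝ, X = Finset.univ.image (fun i => (P i).1) := ⟨_, rfl⟩
  obtain ⟨Y, hY⟩ : ∃ Y : Finset ℝ, Y = Finset.univ.image (fun i => (P i).2) := ⟨_, rfl⟩
  have hXc : X.card ≤ n := by
    rw [hX]
    refine Finset.card_image_le.trans ?_
    rw [Finset.card_univ, Fintype.card_fin]
  have hYc : Y.card ≤ n := by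
    rw [hY]
    refine Finset.card_image_le.trans ?_
    rw [Finset.card_univ, Fintype.card_fin]
  have hGc : (X ×ˢ Y).card ≤ n * n := by
    rw [Finset.card_product]
    exact Nat.mul_le_mul hXc hYc
  have hGne : (X ×ˢ Y).Nonempty := by
    refine ⟨((P ⟨0, hn⟩).1, (P ⟨0, hn⟩).2), Finset.mem_product.2 ⟨?_, ?_⟩⟩
    · rw [hX]; exact Finset.mem_image.2 ⟨⟨0, hn⟩, Finset.mem_univ _, rfl⟩
    · rw [hY]; exact Finset.mem_image.2 ⟨⟨0, hn⟩, Finset.mem_univ _, rfl⟩
  obtain ⟨t, ht⟩ : ∃ t : ℕ, t = ⌈T * L⌉₊ := ⟨_, rfl⟩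
  have ht1 : T * L ≤ t := by rw [ht]; exact Nat.le_ceil _
  have ht2 : (t : ℝ) ≤ T * L + 1 := by
    rw [ht]
    exact (Nat.ceil_lt_add_one (by positivity)).le
  obtain ⟨R, hRW, hsum⟩ := hM F μ T hF (by linarith) hTμ hnets W hnoW (X ×ˢ Y) hGne t
  have hRW' : ∀ i, (∃ j, (R i).l = (P j).1) ∧ (∃ j, (R i).b = (P j).2) ∧ Ne (R i) ∧
      p (inds P (R i)) := by
    intro i
    have := hRW i
    rw [hW] at this
    exact this
  have hdepth : DepthLe R univ w := by
    apply gap_depth R X Y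
    · intro i
      obtain ⟨j, hj⟩ := (hRW' i).1
      rw [hX, hj]
      exact Finset.mem_image.2 ⟨j, Finset.mem_univ _, rfl⟩
    · intro i
      obtain ⟨j, hj⟩ := (hRW' i).2.1
      rw [hY, hj]
      exact Finset.mem_image.2 ⟨j, Finset.mem_univ _, rfl⟩
    · intro q hq
      apply gap_num _ w n t (X ×ˢ Y).card T L hT12 hL hw5 hn hlog hGc ht2
      refine le_trans ?_ hsum
      exact Finset.single_le_sum
        (f := fun p : ℝ × ℝ => (2 : ℝ) ^ ((fl univ (fun i => In (R i) p.1 p.2)).card))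
        (fun _ _ => by positivity) hq
  obtain ⟨A, _, hAind, hAcard⟩ := hDB (Fin t) R univ (fun i _ => (hRW' i).2.2.1) hdepth
  rw [Finset.card_univ, Fintype.card_fin] at hAcard
  have hAcardR : (t : ℝ) ≤ c * w * A.card := by exact_mod_cast hAcard
  have hA : ν + 1 ≤ A.card := by
    by_contra hlt
    push Not at hlt
    have hlt' : A.card ≤ ν := by omega
    have hA1 : (A.card : ℝ) ≤ ν := by exact_mod_cast hlt'
    have hwpos : (0 : ℝ) ≤ w := Nat.cast_nonneg w
    have k1 : (c : ℝ) * w * A.card ≤ c * (6 * L) * ν := by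
      apply mul_le_mul _ hA1 (Nat.cast_nonneg _) (by positivity)
      exact mul_le_mul_of_nonneg_left hw6 (by linarith)
    have k2 : T * L ≤ c * (6 * L) * ν := by linarith
    rw [hTdef] at k2
    have k3 : (0 : ℝ) < c * ν * L := by
      have : (0 : ℝ) < c * ν := by linarith
      exact mul_pos this (by linarith)
    nlinarith
  obtain ⟨A', hA'A, hA'c⟩ := Finset.exists_subset_card_eq hA
  let e := A'.equivFinOfCardEq hA'c
  obtain ⟨a, ha⟩ := hpack (fun a => R (e.symm a)) (by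
    intro a b hab
    apply hAind _ (hA'A (e.symm a).2) _ (hA'A (e.symm b).2)
    intro heq
    exact hab (e.symm.injective (Subtype.ext heq)))
  exact ha (hRW' _).2.2.2

end Wn
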