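import Mathlib
import Pool.Agent.Work.MP_959bfa_wn.Interface

/-!
MP_959bfa_co, block TAIL: lower tail of a random subset.
-/

namespace Wn

open Finset

theorem tail_sum (n : ℕ) (I : Finset (Fin n)) (ε : ℝ) :
    ∑ B : Finset (Fin n), Real.exp (ε * ((I.card : ℝ) - 2 * ((B ∩ I).card : ℝ))) =
      2 ^ n * (Real.cosh ε) ^ I.card := by
  classical
  have h := Finset.prod_add (fun i : Fin n => if i ∈ I then Real.exp (-ε) else 1)
    (fun i : Fin n => if i ∈ I then Real.exp ε else 1) Finset.univ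
  rw [Finset.powerset_univ] at h
  have h1 : ∀ B : Finset (Fin n), Real.exp (ε * ((I.card : ℝ) - 2 * ((B ∩ I).card : ℝ))) =
      (∏ i ∈ B, if i ∈ I then Real.exp (-ε) else 1) *
        ∏ i ∈ Finset.univ \ B, if i ∈ I then Real.exp ε else 1 := by
    intro B
    rw [Finset.prod_ite, Finset.prod_ite, Finset.prod_const_one, Finset.prod_const_one,
      mul_one, mul_one, Finset.prod_const, Finset.prod_const, ← Real.exp_nat_mul,
      ← Real.exp_nat_mul, ← Real.exp_add]
    have e1 : B.filter (fun i => i ∈ I) = B ∩ I := by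
      ext i; simp
    have e2 : (Finset.univ \ B).filter (fun i => i ∈ I) = I \ B := by
      ext i; simp [and_comm]
    rw [e1, e2]
    have e3 : ((I \ B).card : ℝ) + ((B ∩ I).card : ℝ) = I.card := by
      have := Finset.card_sdiff_add_card_inter I B
      rw [Finset.inter_comm I B] at this
      exact_mod_cast this
    have e4 : ((I \ B).card : ℝ) = I.card - ((B ∩ I).card : ℝ) := by linarith
    rw [e4]
    congr 1
    ring
  rw [Finset.sum_congr rfl (fun B _ => h1 B), ← h]
  have h2 : ∀ i : Fin n, ((if i ∈ I then Real.exp (-ε) else 1) +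
      (if i ∈ I then Real.exp ε else 1) : ℝ) = 2 * (if i ∈ I then Real.cosh ε else 1) := by
    intro i
    split_ifs
    · rw [Real.cosh_eq]; ring
    · ring
  rw [Finset.prod_congr rfl (fun i _ => h2 i), Finset.prod_mul_distrib, Finset.prod_const,
    Finset.prod_ite, Finset.prod_const_one, mul_one, Finset.prod_const, Finset.card_univ,
    Fintype.card_fin]
  congr 2
  congr 1
  ext i; simp

theorem TAIL : stmt_TAIL := by
  intro n I ε h0 h1
  have hs := tail_sum n I ε
  have hc : Real.cosh ε ≤ Real.exp (ε ^ 2 / 2) := Real.cosh_le_exp_half_sq ε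
  have hc0 : 0 ≤ Real.cosh ε := (Real.cosh_pos ε).le
  have hb : (Real.cosh ε) ^ I.card ≤ Real.exp (ε ^ 2 / 2 * I.card) := by
    calc (Real.cosh ε) ^ I.card ≤ (Real.exp (ε ^ 2 / 2)) ^ I.card :=
          pow_le_pow_left₀ hc0 hc _
      _ = Real.exp (ε ^ 2 / 2 * I.card) := by
          rw [← Real.exp_nat_mul]; congr 1; ring
  set S := fl (univ : Finset (Finset (Fin n)))
      (fun B => ((B ∩ I).card : ℝ) ≤ (1 - ε) * I.card / 2) with hS
  have hlow : (S.card : ℝ) * Real.exp (ε ^ 2 * I.card) ≤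
      ∑ B : Finset (Fin n), Real.exp (ε * ((I.card : ℝ) - 2 * ((B ∩ I).card : ℝ))) := by
    calc (S.card : ℝ) * Real.exp (ε ^ 2 * I.card)
        = ∑ _B ∈ S, Real.exp (ε ^ 2 * I.card) := by
          rw [Finset.sum_const, nsmul_eq_mul]
      _ ≤ ∑ B ∈ S, Real.exp (ε * ((I.card : ℝ) - 2 * ((B ∩ I).card : ℝ))) := by
          apply Finset.sum_le_sum
          intro B hB
          rw [hS, mem_fl] at hB
          apply Real.exp_le_exp.2
          have h3 : ε * (I.card : ℝ) ≤ (I.card : ℝ) - 2 * ((B ∩ I).card : ℝ) := by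
            linarith [hB.2]
          calc ε ^ 2 * (I.card : ℝ) = ε * (ε * (I.card : ℝ)) := by ring
            _ ≤ ε * ((I.card : ℝ) - 2 * ((B ∩ I).card : ℝ)) :=
                mul_le_mul_of_nonneg_left h3 h0
      _ ≤ ∑ B : Finset (Fin n), Real.exp (ε * ((I.card : ℝ) - 2 * ((B ∩ I).card : ℝ))) := by
          apply Finset.sum_le_sum_of_subset_of_nonneg
          · exact Finset.subset_univ _
          · intro B _ _
            exact (Real.exp_pos _).le
  rw [hs] at hlow
  have hup : (S.card : ℝ) * Real.exp (ε ^ 2 * I.card) ≤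
      2 ^ n * Real.exp (ε ^ 2 / 2 * I.card) := by
    apply hlow.trans
    apply mul_le_mul_of_nonneg_left hb (by positivity)
  have hpos : 0 < Real.exp (ε ^ 2 * (I.card : ℝ)) := Real.exp_pos _
  have hfin : (2 : ℝ) ^ n * Real.exp (ε ^ 2 / 2 * I.card) =
      2 ^ n * Real.exp (-(ε ^ 2 * I.card / 2)) * Real.exp (ε ^ 2 * I.card) := by
    rw [mul_assoc, ← Real.exp_add]
    congr 2
    ring
  rw [hfin] at hup
  exact le_of_mul_le_mul_right hup hpos

end Wn
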